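import Pool.Agent.H159R3.Torus.Results
import Pool.Agent.H159R3.Exp.SpRat

/-!
Rational curves and entire curves.
-/

set_option autoImplicit false

namespace Pool.Agent.H159R3.Torus

open Filter MvPolynomial Pool.Agent.H159R3.NV Pool.Agent.H159R3.Exp
open scoped Topology

variable {n : ℕ} {ι : Type}

theorem rationalCurve_of (F : ι → MvPolynomial (Fin (n + 1)) ℂ)
    (hF : ∀ i, ∃ d, (F i).IsHomogeneous d) (v : ℂ → Fin (n + 1) → ℂ)
    (hv : ∀ j, Laur (fun t => v t j)) (hvF : ∀ i t, t ≠ 0 → eval (v t) (F i) = 0) (s : ℂ)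
    (hs : s ≠ 0) (j k : Fin (n + 1)) (hjk : v 1 j * v s k - v 1 k * v s j ≠ 0) :
    ∃ Q, RationalCurve F Q := by
  have h1 : v 1 ≠ 0 := by
    intro h
    apply hjk
    rw [h]
    simp
  obtain ⟨D, Q, c, hD, hDj, hQ, hc, hcfin⟩ := reduce v hv h1
  refine ⟨Q, ⟨fun t => ⟨?_, fun i => ?_⟩, ?_⟩⟩
  · obtain ⟨j, hj⟩ := hQ t
    exact Function.ne_iff.mpr ⟨j, hj⟩
  · obtain ⟨d, hd⟩ := hF i
    have h2 := reduce_mem v D Q c hD hc hcfin (F i) hd (hvF i) 1 t
    rw [show (fun j => hom D (Q j) 1 t) = fun j => (Q j).eval t from funext fun j => by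
      rw [hom_of_ne D (Q j) (hD j) _ _ one_ne_zero]
      simp] at h2
    exact h2
  · refine ⟨1, s, fun a ha => hjk ?_⟩
    have h2 : ∀ l, (Q l).eval 1 = a * (Q l).eval s := fun l => congrFun ha l
    rw [hc 1 one_ne_zero, hc 1 one_ne_zero, hc _ hs, hc _ hs, h2 j, h2 k]
    ring

/-- Varieties given by few monomials that are high powers, or by forms of small Waring rank, are
Brody hyperbolic if and only if they contain no rational curve. -/
theorem hyperbolic_iff (F : ι → MvPolynomial (Fin (n + 1)) ℂ)
    (hF : ∀ i, ∃ d, 0 < d ∧ (F i).IsHomogeneous d)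
    (hC : (∀ i, GGL.PowerSparse (F i)) ∨
      ∀ i, ∀ d, (F i).IsHomogeneous d → Lang.SmallWaring (RingHom.id ℂ) (F i) d) :
    (∀ f, ¬ GGL.EntireCurve F f) ↔ ∀ Q, ¬ RationalCurve F Q := by
  have hF' : ∀ i, ∃ d, (F i).IsHomogeneous d := fun i => by
    obtain ⟨d, -, hd⟩ := hF i
    exact ⟨d, hd⟩
  constructor
  · intro h Q hQ
    exact h _ hQ.entire.1
  · intro h f hf
    rcases hC with hC | hC
    · obtain ⟨z0, b, j, k, hj, hk, hbjk, -, hs⟩ := GGL.curve F hC f hf 1 0 (by simp)
      obtain ⟨Q, hQ⟩ := rationalCurve_of F hF' (fun t j => f z0 j * t ^ b j)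
        (fun j => (Laur.const _).mul (Laur.zpow _)) (fun i t ht => by
          have h1 := BLV.eval_laurent_zero (RingHom.id ℂ) (F i) (f z0) b t ht (fun v => by
            rw [← hs i v, GGL.eval_sub']
            rfl)
          exact h1) 2 two_ne_zero j k (by
          intro h1
          simp only [one_zpow, mul_one] at h1
          apply hbjk
          have h2 : f z0 j * f z0 k * ((2 : ℂ) ^ b k - 2 ^ b j) = 0 := by linear_combination h1
          have h3 := (mul_eq_zero.mp h2).resolve_left (mul_ne_zero hj hk)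
          exact zpow_right_injective₀ (by norm_num) (by norm_num)
            (GGL.two_zpow (sub_eq_zero.mp h3).symm))
      exact h Q hQ
    · obtain ⟨hfd, hfX, w, z, hwz⟩ := hf
      have h1 : ∃ j k, f w j * f z k - f w k * f z j ≠ 0 := by
        by_contra hc
        push Not at hc
        obtain ⟨k, hk⟩ := Function.ne_iff.mp (hfX z).1
        have hk' : f z k ≠ 0 := hk
        apply hwz (f w k / f z k)
        funext j
        rw [Pi.smul_apply, smul_eq_mul]
        have := hc j k
        field_simp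
        linear_combination this
      obtain ⟨j, k, hjk⟩ := h1
      obtain ⟨Q, hQ⟩ := rationalCurve_of F hF' (fun t j => f w j + (t - 1) * f z j) (fun j => by
          have h3 := Laur.poly (Polynomial.C (f w j) + (Polynomial.X - 1) * Polynomial.C (f z j))
          simpa using h3) (fun i t ht => by
          obtain ⟨d, hd0, hd⟩ := hF i
          have h3 := Lang.waring_span (RingHom.id ℂ) (F i) hd0 (hC i d hd) f hfd
            (fun z => (hfX z).2 i) 1 (t - 1) w z
          rw [one_smul] at h3
          exact h3) 2 two_ne_zero j k (by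
          intro h0
          apply hjk
          linear_combination h0)
      exact h Q hQ

end Pool.Agent.H159R3.Torus
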