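import Pool.Agent.H159R3.NV.Final

/-!
A nonconstant map from the elliptic curve with the lattice of Gaussian integers to the projective
line.
-/

set_option autoImplicit false

namespace Pool.Agent.H159R3.Torus

open Complex Filter Set Topology Pool.Agent.H159R3.NV

noncomputable def th (z : ℂ) : ℂ := jacobiTheta₂ z I

theorem th_diff : Differentiable ℂ th := fun z => differentiableAt_jacobiTheta₂_fst z (by simp)

theorem th_add_one (z : ℂ) : th (z + 1) = th z := jacobiTheta₂_add_left z I

theorem th_add_I (z : ℂ) : th (z + I) = exp (-Real.pi * I * (I + 2 * z)) * th z :=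
  jacobiTheta₂_add_left' z I

theorem th_neg (z : ℂ) : th (-z) = th z := jacobiTheta₂_neg_left z I

theorem th_zero : th ((1 + I) / 2) = 0 := by
  have h1 : (1 + I) / 2 = (-((1 + I) / 2) + I) + 1 := by ring
  have h2 : th ((1 + I) / 2) = - th ((1 + I) / 2) := by
    conv_lhs => rw [h1, th_add_one, th_add_I, th_neg]
    have h3 : -Real.pi * I * (I + 2 * -((1 + I) / 2)) = Real.pi * I := by ring
    rw [h3, exp_pi_mul_I]
    ring
  have h4 : (2 : ℂ) * th ((1 + I) / 2) = 0 := by linear_combination h2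
  exact (mul_eq_zero.mp h4).resolve_left two_ne_zero

theorem th_ne : th 0 ≠ 0 := by
  intro h0
  have h1 := norm_jacobiTheta_sub_one_le (τ := I) (by simp)
  have h2 : jacobiTheta I = 0 := by rw [jacobiTheta_eq_jacobiTheta₂]; exact h0
  rw [h2, zero_sub, norm_neg, norm_one, I_im, mul_one] at h1
  have h3 : Real.exp (-Real.pi) < 1 / 4 := by
    rw [Real.exp_neg, inv_eq_one_div]
    apply one_div_lt_one_div_of_lt (by norm_num)
    have h4 := Real.add_one_lt_exp (x := Real.pi) Real.pi_pos.ne'
    linarith [Real.pi_gt_three]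
  have h5 : 0 < 1 - Real.exp (-Real.pi) := by linarith
  rw [div_mul_eq_mul_div, le_div_iff₀ h5] at h1
  linarith

theorem countable_zeros {f : ℂ → ℂ} (hf : Differentiable ℂ f) (h0 : ∃ z, f z ≠ 0) :
    {z | f z = 0}.Countable := by
  obtain ⟨y, hy⟩ := h0
  have h1 : ∀ n : ℕ, ({z | f z = 0} ∩ Metric.closedBall 0 n).Finite := by
    intro n
    by_contra hcon
    obtain ⟨x, -, hx⟩ := Set.Infinite.exists_accPt_of_subset_isCompact hcon
      (isCompact_closedBall (0 : ℂ) n) inter_subset_right
    rw [accPt_iff_frequently] at hx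
    have h2 := ev_ne hf hy x
    rw [eventually_nhdsWithin_iff] at h2
    apply hx
    filter_upwards [h2] with z hz hcon2
    exact hz hcon2.1 hcon2.2.1
  have h2 : {z | f z = 0} ⊆ ⋃ n : ℕ, ({z | f z = 0} ∩ Metric.closedBall 0 n) := by
    intro z hz
    obtain ⟨n, hn⟩ := exists_nat_ge ‖z‖
    exact mem_iUnion.mpr ⟨n, hz, by rwa [mem_closedBall_zero_iff]⟩
  exact (countable_iUnion fun n => (h1 n).countable).mono h2

theorem exists_shift : ∃ a : ℂ, ∀ z w, th z = 0 → th w = 0 → w - z ≠ a := by
  have h1 := countable_zeros th_diff ⟨0, th_ne⟩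
  have h2 : (image2 (fun w z => w - z) {z | th z = 0} {z | th z = 0}).Countable := h1.image2 h1 _
  obtain ⟨a, ha⟩ := (h2.dense_compl ℝ).nonempty
  refine ⟨a, fun z w hz hw h => ha ?_⟩
  exact ⟨w, hw, z, hz, h⟩

/-- the lattice of Gaussian integers -/
def gauss : AddSubgroup (Fin 1 → ℂ) := AddSubgroup.closure {fun _ => 1, fun _ => I}

noncomputable def bas : Module.Basis (Fin 2) ℝ (Fin 1 → ℂ) :=
  basisOneI.map (LinearEquiv.funUnique (Fin 1) ℝ ℂ).symm

theorem bas_range : range bas = {fun _ => 1, fun _ => I} := by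
  ext x
  simp only [mem_range, mem_insert_iff, mem_singleton_iff]
  constructor
  · rintro ⟨i, rfl⟩
    fin_cases i
    · left
      funext j
      simp [bas]
    · right
      funext j
      simp [bas]
  · rintro (rfl | rfl)
    · exact ⟨0, by funext j; simp [bas]⟩
    · exact ⟨1, by funext j; simp [bas]⟩

theorem gauss_eq : gauss = (Submodule.span ℤ (range bas)).toAddSubgroup := by
  rw [Submodule.span_int_eq_addSubgroupClosure, bas_range]
  rfl

instance gauss_discrete : DiscreteTopology gauss := by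
  rw [gauss_eq]
  infer_instance

theorem gauss_span : Submodule.span ℝ (gauss : Set (Fin 1 → ℂ)) = ⊤ := by
  rw [eq_top_iff, ← bas.span_eq]
  apply Submodule.span_mono
  rw [gauss_eq]
  exact Submodule.subset_span

/-- Two functions without common zeros and with the same factors of automorphy. -/
theorem exists_pair : ∃ g1 g2 : ℂ → ℂ, Differentiable ℂ g1 ∧ Differentiable ℂ g2 ∧
    (∀ z, g1 z ≠ 0 ∨ g2 z ≠ 0) ∧ (∃ z, g1 z ≠ 0) ∧ (∃ z, g1 z = 0) ∧
    ∀ l ∈ gauss, ∀ z, ∃ c : ℂ, g1 (z + l 0) = c * g1 z ∧ g2 (z + l 0) = c * g2 z := by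
  obtain ⟨a, ha⟩ := exists_shift
  have hne : ∀ z, th z ^ 2 ≠ 0 ∨ th (z + a) * th (z - a) ≠ 0 := by
    intro z
    by_cases hz : th z = 0
    · right
      apply mul_ne_zero
      · intro h
        exact ha z (z + a) hz h (by ring)
      · intro h
        exact ha (z - a) z h hz (by ring)
    · exact Or.inl (pow_ne_zero _ hz)
  refine ⟨fun z => th z ^ 2, fun z => th (z + a) * th (z - a), th_diff.pow 2,
    (th_diff.comp (differentiable_id.add_const a)).mul
      (th_diff.comp (differentiable_id.sub_const a)), hne, ⟨0, pow_ne_zero _ th_ne⟩,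
    ⟨(1 + I) / 2, by simp only [th_zero]; norm_num⟩, ?_⟩
  intro l hl
  refine AddSubgroup.closure_induction (p := fun l _ => ∀ z, ∃ c : ℂ,
    th (z + l 0) ^ 2 = c * th z ^ 2 ∧
    th (z + l 0 + a) * th (z + l 0 - a) = c * (th (z + a) * th (z - a))) ?_ ?_ ?_ ?_ hl
  · rintro x (rfl | rfl) z
    · refine ⟨1, ?_, ?_⟩
      · rw [th_add_one, one_mul]
      · rw [show z + 1 + a = z + a + 1 by ring, show z + 1 - a = z - a + 1 by ring, th_add_one,
          th_add_one, one_mul]
    · refine ⟨exp (-Real.pi * I * (I + 2 * z)) ^ 2, ?_, ?_⟩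
      · rw [th_add_I, mul_pow]
      · rw [show z + I + a = z + a + I by ring, show z + I - a = z - a + I by ring, th_add_I,
          th_add_I]
        have : exp (-Real.pi * I * (I + 2 * (z + a))) * exp (-Real.pi * I * (I + 2 * (z - a)))
            = exp (-Real.pi * I * (I + 2 * z)) ^ 2 := by
          rw [← exp_nat_mul, ← exp_add]
          congr 1
          push_cast
          ring
        rw [← this]
        ring
  · intro z
    exact ⟨1, by simp, by simp⟩
  · intro x y _ _ hx hy z
    obtain ⟨c, hc1, hc2⟩ := hx z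
    obtain ⟨c', hc1', hc2'⟩ := hy (z + x 0)
    refine ⟨c' * c, ?_, ?_⟩
    · rw [Pi.add_apply, ← add_assoc, hc1', hc1, mul_assoc]
    · rw [Pi.add_apply, ← add_assoc, hc2', hc2, mul_assoc]
  · intro x _ hx z
    obtain ⟨c, hc1, hc2⟩ := hx (z + (-x) 0)
    have e : z + (-x) 0 + x 0 = z := by rw [Pi.neg_apply]; ring
    rw [e] at hc1 hc2
    have hc0 : c ≠ 0 := by
      rintro rfl
      rw [zero_mul] at hc1 hc2
      rcases hne z with h | h
      · exact h hc1
      · exact h hc2
    refine ⟨c⁻¹, ?_, ?_⟩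
    · rw [hc1, ← mul_assoc, inv_mul_cancel₀ hc0, one_mul]
    · rw [hc2, ← mul_assoc, inv_mul_cancel₀ hc0, one_mul]

end Pool.Agent.H159R3.Torus
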