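import Pool.Agent.H159R3.Torus.Theta
import Pool.Agent.H159R3.Exp.Rational

/-!
Maps from an elliptic curve to projective varieties containing a rational curve.
-/

set_option autoImplicit false

namespace Pool.Agent.H159R3.Torus

open Filter MvPolynomial Pool.Agent.H159R3.NV Pool.Agent.H159R3.Exp
open scoped Topology

/-- Every holomorphic map from the complex torus with the lattice `L` to the projective variety
with the equations `p = 0`, `p` in `S`, is constant. -/
def TorusMapsConstant {n g : ℕ} (S : Set (MvPolynomial (Fin (n + 1)) ℂ))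
    (L : AddSubgroup (Fin g → ℂ)) : Prop :=
  ∀ F : (Fin g → ℂ) → (Fin (n + 1) → ℂ), Differentiable ℂ F → (∀ z, F z ≠ 0) →
    (∀ z, ∀ p ∈ S, eval (F z) p = 0) → (∀ z, ∀ l ∈ L, ∃ c : ℂ, F (z + l) = c • F z) →
    ∀ z w, ∃ c : ℂ, F w = c • F z

theorem torus_const {n : ℕ} (S : Set (MvPolynomial (Fin (n + 1)) ℂ))
    (hS : ∀ p ∈ S, ∃ d : ℕ, p.IsHomogeneous d) (hT : TorusMapsConstant S gauss)
    (v : ℂ → Fin (n + 1) → ℂ) (hv : ∀ j, Laur (fun t => v t j)) (h1 : v 1 ≠ 0)
    (hvS : ∀ p ∈ S, ∀ t, t ≠ 0 → eval (v t) p = 0) (t : ℂ) (ht : t ≠ 0) (a b : Fin (n + 1)) :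
    v 1 a * v t b - v 1 b * v t a = 0 := by
  classical
  obtain ⟨D, Q, c, hD, hDj, hQ, hc, hcfin⟩ := reduce v hv h1
  obtain ⟨g1, g2, hg1, hg2, hg, ⟨y1, hy1⟩, ⟨y2, hy2⟩, hL⟩ := exists_pair
  have hz0 : Differentiable ℂ (fun z : Fin 1 → ℂ => z 0) :=
    (differentiable_pi.mp differentiable_id) 0
  have h2 := hT (fun z j => hom D (Q j) (g1 (z 0)) (g2 (z 0))) (by
      rw [differentiable_pi]
      intro j
      unfold hom
      apply Differentiable.fun_sum
      intro l _
      exact (((hg1.comp hz0).pow _).const_mul _).mul ((hg2.comp hz0).pow _))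
    (fun z => hom_ne D Q hD hDj hQ _ _ (hg _)) (by
      intro z p hp
      obtain ⟨d, hd⟩ := hS p hp
      exact reduce_mem v D Q c hD hc hcfin p hd (hvS p hp) _ _) (by
      intro z l hl
      obtain ⟨e, he1, he2⟩ := hL l hl (z 0)
      refine ⟨e ^ D, ?_⟩
      funext j
      rw [Pi.smul_apply, smul_eq_mul, Pi.add_apply, he1, he2, hom_smul]) (fun _ => y1)
  set p : Fin (n + 1) → ℂ := fun j => hom D (Q j) (g1 y1) (g2 y1) with hp
  have hp0 : p ≠ 0 := hom_ne D Q hD hDj hQ _ _ (hg y1)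
  -- the polynomial relations
  have h3 : ∀ a b, Q a * Polynomial.C (p b) - Q b * Polynomial.C (p a) = 0 := by
    intro a b
    by_contra hne
    set R : Polynomial ℂ := Q a * Polynomial.C (p b) - Q b * Polynomial.C (p a) with hR
    have h4 : ∀ᶠ z in 𝓝[≠] (0 : ℂ), g1 z ≠ 0 ∧ ∀ s ∈ R.roots.toFinset, g2 z - s * g1 z ≠ 0 := by
      refine (ev_ne hg1 hy1 0).and ?_
      rw [Filter.eventually_all_finset]
      intro s _
      apply ev_ne (f := fun z => g2 z - s * g1 z) (hg2.sub (hg1.const_mul _)) (x := y2)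
      change g2 y2 - s * g1 y2 ≠ 0
      rw [hy2, mul_zero, sub_zero]
      exact (hg y2).resolve_left (fun h => h hy2)
    obtain ⟨z, hz1, hz2⟩ := h4.exists
    obtain ⟨e, he⟩ := h2 (fun _ => z)
    have h5 : ∀ j, hom D (Q j) (g1 z) (g2 z) = e * p j := fun j => congrFun he j
    have h6 : R.eval (g2 z / g1 z) = 0 := by
      rw [hR, Polynomial.eval_sub, Polynomial.eval_mul, Polynomial.eval_mul, Polynomial.eval_C,
        Polynomial.eval_C]
      have h7 := h5 a
      have h8 := h5 b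
      rw [hom_of_ne D (Q a) (hD a) _ _ hz1] at h7
      rw [hom_of_ne D (Q b) (hD b) _ _ hz1] at h8
      apply mul_left_cancel₀ (pow_ne_zero D hz1)
      linear_combination p b * h7 - p a * h8
    apply hz2 (g2 z / g1 z)
    · rw [Multiset.mem_toFinset, Polynomial.mem_roots hne]
      exact h6
    · rw [div_mul_cancel₀ _ hz1, sub_self]
  obtain ⟨k, hk⟩ := Function.ne_iff.mp hp0
  have hk' : p k ≠ 0 := hk
  have h4 : ∀ t a, (Q a).eval t * p k = (Q k).eval t * p a := by
    intro t a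
    have := congrArg (Polynomial.eval t) (h3 a k)
    rw [Polynomial.eval_sub, Polynomial.eval_mul, Polynomial.eval_mul, Polynomial.eval_C,
      Polynomial.eval_C, Polynomial.eval_zero] at this
    linear_combination this
  rw [hc 1 one_ne_zero a, hc 1 one_ne_zero b, hc t ht a, hc t ht b]
  apply mul_left_cancel₀ (mul_ne_zero hk' hk')
  have e1 := h4 1 a
  have e2 := h4 1 b
  have e3 := h4 t a
  have e4 := h4 t b
  linear_combination (c 1 * c t * p k * (Q b).eval t) * e1 + (c 1 * c t * (Q k).eval 1 * p a) * e4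
    - (c 1 * c t * p k * (Q a).eval t) * e2 - (c 1 * c t * (Q k).eval 1 * p b) * e3

end Pool.Agent.H159R3.Torus
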