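import Pool.Agent.H159R3.Torus.Main
import Pool.Agent.H159R3.Exp.Proj
import Pool.Agent.H159R3.GGL.Special
import Pool.Agent.H159R3.Lang.Line

/-!
Maps from an elliptic curve and entire curves.
-/

set_option autoImplicit false

namespace Pool.Agent.H159R3.Torus

open Filter MvPolynomial Pool.Agent.H159R3.NV Pool.Agent.H159R3.Exp
open scoped Topology

theorem ne_smul_of {n : ℕ} {f : ℂ → Fin (n + 1) → ℂ} (hf0 : ∀ z, f z ≠ 0) {z w : ℂ}
    (h : ¬ ∃ c : ℂ, f w = c • f z) : ∃ z w, ∀ c : ℂ, f z ≠ c • f w := by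
  push Not at h
  exact ⟨w, z, h⟩

/-- Entire curves of exponential type. -/
theorem exponential {n : ℕ} (S : Set (MvPolynomial (Fin (n + 1)) ℂ))
    (hS : ∀ p ∈ S, ∃ d : ℕ, p.IsHomogeneous d) (hT : TorusMapsConstant S gauss)
    (f : ℂ → Fin (n + 1) → ℂ) (hf : Differentiable ℂ f) (hf0 : ∀ z, f z ≠ 0)
    (hfS : ∀ z, ∀ p ∈ S, eval (f z) p = 0) (hft : ExpTypeP f) (z w : ℂ) :
    ∃ c : ℂ, f w = c • f z := by
  by_contra hcon
  obtain ⟨v, hv, -, ⟨m, j, k, hjk⟩, hvF⟩ := rational_of_entire f hf hf0 hft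
    (ne_smul_of hf0 hcon) 1 (isHomogeneous_one _ _) 0 (by simp)
  apply hjk
  have h1 : v 1 ≠ 0 := by
    intro h
    apply hjk
    rw [h]
    simp
  exact torus_const S hS hT v hv h1 (fun p hp t ht => by
    obtain ⟨d, hd⟩ := hS p hp
    exact hvF p d hd (fun z => hfS z p hp) t ht) (2 ^ m) (pow_ne_zero _ two_ne_zero) j k

/-- Few monomials that are high powers. -/
theorem power {n : ℕ} (S : Set (MvPolynomial (Fin (n + 1)) ℂ))
    (hS : ∀ p ∈ S, ∃ d : ℕ, p.IsHomogeneous d) (hP : ∀ p ∈ S, GGL.PowerSparse p)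
    (hT : TorusMapsConstant S gauss)
    (f : ℂ → Fin (n + 1) → ℂ) (hf : Differentiable ℂ f) (hf0 : ∀ z, f z ≠ 0)
    (hfS : ∀ z, ∀ p ∈ S, eval (f z) p = 0) (z w : ℂ) : ∃ c : ℂ, f w = c • f z := by
  by_contra hcon
  let F : S → MvPolynomial (Fin (n + 1)) ℂ := fun p => p.1
  have hE : GGL.EntireCurve F f :=
    ⟨hf, fun z => ⟨hf0 z, fun p => hfS z p.1 p.2⟩, ne_smul_of hf0 hcon⟩
  obtain ⟨v, ⟨hv, hvX, -⟩, -⟩ := GGL.torusCurve_of F (fun p => hP p.1 p.2) f hE 1 0 (by simp)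
  obtain ⟨z0, b, j, k, hj, hk, hbjk, -, hs⟩ :=
    GGL.curve F (fun p => hP p.1 p.2) f hE 1 0 (by simp)
  have h1 := torus_const S hS hT (fun t j => f z0 j * t ^ b j)
    (fun j => (Laur.const _).mul (Laur.zpow _)) (by simpa using hf0 z0) (fun p hp t ht => by
      have h1 := BLV.eval_laurent_zero (RingHom.id ℂ) p (f z0) b t ht (fun v => by
        rw [← hs ⟨p, hp⟩ v, GGL.eval_sub']
        rfl)
      exact h1) 2 two_ne_zero j k
  simp only [one_zpow, mul_one] at h1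
  apply hbjk
  have h2 : f z0 j * f z0 k * ((2 : ℂ) ^ b k - 2 ^ b j) = 0 := by linear_combination h1
  have h3 := (mul_eq_zero.mp h2).resolve_left (mul_ne_zero hj hk)
  exact zpow_right_injective₀ (by norm_num) (by norm_num) (GGL.two_zpow (sub_eq_zero.mp h3).symm)

/-- Forms of small Waring rank. -/
theorem waring {n : ℕ} (S : Set (MvPolynomial (Fin (n + 1)) ℂ))
    (hS : ∀ p ∈ S, ∃ d : ℕ, 0 < d ∧ p.IsHomogeneous d ∧ Lang.SmallWaring (RingHom.id ℂ) p d)
    (hT : TorusMapsConstant S gauss)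
    (f : ℂ → Fin (n + 1) → ℂ) (hf : Differentiable ℂ f) (hf0 : ∀ z, f z ≠ 0)
    (hfS : ∀ z, ∀ p ∈ S, eval (f z) p = 0) (z w : ℂ) : ∃ c : ℂ, f w = c • f z := by
  by_contra hcon
  push Not at hcon
  -- the line through two points
  have h1 : ∃ j k, f w j * f z k - f w k * f z j ≠ 0 := by
    by_contra hc
    push Not at hc
    obtain ⟨k, hk⟩ := Function.ne_iff.mp (hf0 z)
    have hk' : f z k ≠ 0 := hk
    apply hcon (f w k / f z k)
    funext j
    rw [Pi.smul_apply, smul_eq_mul]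
    have := hc j k
    field_simp
    linear_combination this
  obtain ⟨j, k, hjk⟩ := h1
  have hz0 : (fun j => f w j + (1 - 1) * f z j : Fin (n + 1) → ℂ) ≠ 0 := by
    simpa using hf0 w
  have h2 := torus_const S (fun p hp => by
      obtain ⟨d, -, hd, -⟩ := hS p hp
      exact ⟨d, hd⟩) hT (fun t j => f w j + (t - 1) * f z j) (fun j => by
      have h3 := Laur.poly (Polynomial.C (f w j) + (Polynomial.X - 1) * Polynomial.C (f z j))
      simpa using h3) hz0 (fun p hp t ht => by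
      obtain ⟨d, hd0, hd, hW⟩ := hS p hp
      have h3 := Lang.waring_span (RingHom.id ℂ) p hd0 hW f hf (fun z => hfS z p hp) 1 (t - 1) w z
      rw [one_smul] at h3
      exact h3) 2 two_ne_zero j k
  apply hjk
  linear_combination h2

end Pool.Agent.H159R3.Torus
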